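import Pool.Agent.Helper66_DE.Final
import Pool.Agent.Helper66_DE.Bridge

/-!
# A terminalization and a maximal modification algebra which are not derived equivalent

There are a normal Gorenstein domain `R` of dimension three, of finite type over `ℂ`, with only
canonical singularities, a `ℚ`-factorial terminalization `f : Y → Spec R` and a maximal modifying
`R`-module `M` such that `Y` and `End_R(M)` are not derived equivalent.

(In the proof `R = ℂ[x,y₀,y₁,y₂]/(x⁴+y₀³+y₁³+y₂³)`, `Y` is the blow-up of the origin and `M = R`.)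
-/

open CategoryTheory AlgebraicGeometry Pool.Agent.H66DE

namespace Pool.Agent.Results.MP_9c87df_ag.NotDerivedEquivalent

theorem result :
    ∃ (R : Type) (_ : CommRing R) (_ : IsDomain R) (_ : Algebra ℂ R),
      IsIntegrallyClosed R ∧ Algebra.FiniteType ℂ R ∧ ringKrullDim R = 3 ∧ IsGorenstein R ∧
      V.IsCanonical R ∧
      ∃ (Y : Scheme.{0}) (_ : IsIntegral Y) (_ : IsLocallyNoetherian Y)
        (f : Y ⟶ Spec (CommRingCat.of R)), V.IsQFactorialTerminalization f ∧
      ∃ (M : Type) (_ : AddCommGroup M) (_ : Module R M) (_ : IsNoetherianRing (Module.End R M)),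
        IsMM R M ∧ ¬ V.DEq Y (Module.End R M) := by
  obtain ⟨R, i1, i2, i3, h1, h2, h3, h4, h5, Y, i4, i5, f, h6, M, i6, i7, i8, h7, h8⟩ := final
  exact ⟨R, i1, i2, i3, h1, h2, h3, h4, V.isCanonical_of h5, Y, i4, i5, f,
    V.isQFactorialTerminalization_of f h6, M, i6, i7, i8, h7, h8⟩

end Pool.Agent.Results.MP_9c87df_ag.NotDerivedEquivalent
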